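import Mathlib

/-! Algebraic independence is raised by one along a strict specialisation. -/

namespace D13r

open MvPolynomial

theorem indep_option_aux {k R A B ι : Type*} [Field k] [CommRing R] [CommRing A] [IsDomain A]
    [CommRing B] [Algebra k R] [Algebra k A] [Algebra k B] (φ : R →ₐ[k] A) (ψ : R →ₐ[k] B)
    (hker : ∀ F, φ F = 0 → ψ F = 0) (a : R) (ha : φ a ≠ 0) (ha' : ψ a = 0) (u : ι → R)
    (hu : AlgebraicIndependent k (fun i => ψ (u i))) :
    ∀ (n : ℕ) (q : Polynomial (MvPolynomial ι k)), q.natDegree ≤ n →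
      φ (Polynomial.eval₂ (aeval u : MvPolynomial ι k →ₐ[k] R).toRingHom a q) = 0 → q = 0 := by
  intro n
  have key : ∀ q : Polynomial (MvPolynomial ι k),
      φ (Polynomial.eval₂ (aeval u : MvPolynomial ι k →ₐ[k] R).toRingHom a q) = 0 →
      q.coeff 0 = 0 ∧
      φ (Polynomial.eval₂ (aeval u : MvPolynomial ι k →ₐ[k] R).toRingHom a q.divX) = 0 := by
    intro q hq
    have hdec : Polynomial.eval₂ (aeval u : MvPolynomial ι k →ₐ[k] R).toRingHom a q
        = Polynomial.eval₂ (aeval u : MvPolynomial ι k →ₐ[k] R).toRingHom a q.divX * a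
          + aeval u (q.coeff 0) := by
      conv_lhs => rw [← Polynomial.divX_mul_X_add q]
      rw [Polynomial.eval₂_add, Polynomial.eval₂_mul_X, Polynomial.eval₂_C]
      rfl
    have h0 : q.coeff 0 = 0 := by
      have h1 := hker _ hq
      rw [hdec, map_add, map_mul, ha', mul_zero, zero_add] at h1
      have h2 : aeval (fun i => ψ (u i)) (q.coeff 0) = 0 := by
        rw [← h1, ← MvPolynomial.comp_aeval_apply]
      exact (algebraicIndependent_iff.mp hu) _ h2
    refine ⟨h0, ?_⟩
    rw [hdec, h0, map_zero, add_zero, map_mul] at hq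
    exact (mul_eq_zero.mp hq).resolve_right ha
  induction n with
  | zero =>
    intro q hn hq
    obtain ⟨h0, -⟩ := key q hq
    rw [Polynomial.eq_C_of_natDegree_le_zero hn, h0, map_zero]
  | succ n ih =>
    intro q hn hq
    obtain ⟨h0, h1⟩ := key q hq
    have h2 := ih q.divX (by rw [Polynomial.natDegree_divX_eq_natDegree_tsub_one]; omega) h1
    rw [← Polynomial.divX_mul_X_add q, h2, h0, map_zero, zero_mul, add_zero]

theorem indep_option {k R A B ι : Type*} [Field k] [CommRing R] [CommRing A] [IsDomain A]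
    [CommRing B] [Algebra k R] [Algebra k A] [Algebra k B] (φ : R →ₐ[k] A) (ψ : R →ₐ[k] B)
    (hker : ∀ F, φ F = 0 → ψ F = 0) (a : R) (ha : φ a ≠ 0) (ha' : ψ a = 0) (u : ι → R)
    (hu : AlgebraicIndependent k (fun i => ψ (u i))) :
    AlgebraicIndependent k (fun o : Option ι => φ (o.elim a u)) := by
  rw [algebraicIndependent_iff]
  intro p hp
  have h1 : ∀ p : MvPolynomial (Option ι) k, aeval (fun o : Option ι => φ (o.elim a u)) p
      = φ (Polynomial.eval₂ (aeval u : MvPolynomial ι k →ₐ[k] R).toRingHom a
        (optionEquivLeft k ι p)) := by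
    intro p
    induction p using MvPolynomial.induction_on with
    | C c => simp [optionEquivLeft_C]
    | add p q hp hq => rw [map_add, hp, hq, map_add, Polynomial.eval₂_add, map_add]
    | mul_X p o hp =>
      rw [map_mul, hp, map_mul, Polynomial.eval₂_mul, map_mul, aeval_X]
      congr 1
      cases o with
      | none => simp [optionEquivLeft_X_none]
      | some i => simp [optionEquivLeft_X_some]
  rw [h1] at hp
  have h2 := indep_option_aux φ ψ hker a ha ha' u hu _ _ le_rfl hp
  exact (optionEquivLeft k ι).injective (by rw [h2, map_zero])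

end D13r
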