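import Pool.Agent.Lib.D13r.Fin

/-!
# MP_5dcbc3_ag: the answer to the question, from the statement for triples of size at most 12
-/

set_option autoImplicit false

namespace Pool.Agent.Lib.D13r

open Pool.Agent.Lib.TSQ

universe u

/-- `Quot_r^d(A^3, 0)` is reducible: it is the union of two closed subsets, each different from
the whole space -/
def Reducible (k : Type u) [Field k] (r d : ℕ) : Prop :=
  ∃ C D : Set (PQuot k r d), IsClosed C ∧ IsClosed D ∧ C ≠ Set.univ ∧ D ≠ Set.univ ∧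
    C ∪ D = Set.univ

theorem reducible_iff {k : Type u} [Field k] {r d : ℕ} :
    Reducible k r d ↔ ¬ IsPreirreducible (Set.univ : Set (PQuot k r d)) := by
  rw [isPreirreducible_iff_isClosed_union_isClosed]
  push Not
  constructor
  · rintro ⟨C, D, hC, hD, hC', hD', h⟩
    refine ⟨C, D, hC, hD, h.symm.subset, ?_, ?_⟩
    · exact fun h' => hC' (Set.univ_subset_iff.1 h')
    · exact fun h' => hD' (Set.univ_subset_iff.1 h')
  · rintro ⟨C, D, hC, hD, h, hC', hD'⟩
    exact ⟨C, D, hC, hD, fun h' => hC' h'.symm.subset, fun h' => hD' h'.symm.subset,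
      Set.univ_subset_iff.1 h⟩

theorem answer (k : Type u) [Field k] [Infinite k]
    (h12 : ∀ d : ℕ, 0 < d → d ≤ 12 → ∀ A : Fin 3 → Matrix (Fin d) (Fin d) k,
      (∀ i j, A i * A j = A j * A i) → (∀ i, IsNilpotent (A i)) → Q5dc.Cl A) :
    IsLeast {d : ℕ | 1 ≤ d ∧ ∃ r : ℕ, 1 ≤ r ∧ Reducible k r d} 13 ∧
    (∀ r d : ℕ, 1 ≤ r → 1 ≤ d → d ≤ 12 →
      IsIrreducible (Set.univ : Set (PQuot k r d)) ∧ Dense (Curv k r d)) ∧
    (∀ r : ℕ, 13 ≤ r → Reducible k r 13) := by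
  obtain ⟨-, h2, -⟩ := _root_.D13r.full h12
  have h3 : ∀ r : ℕ, 13 ≤ r → Reducible k r 13 := by
    intro r hr
    obtain ⟨B, _, _, Ψ, hΨ, hB⟩ := _root_.D13r.low13 k
    exact reducible_iff.2 (D13R.not_irreducible_of_low hB Ψ hΨ hr)
  refine ⟨⟨⟨by norm_num, 13, by norm_num, h3 13 le_rfl⟩, ?_⟩, h2, h3⟩
  rintro d ⟨hd, r, hr, hred⟩
  by_contra hlt
  push Not at hlt
  exact reducible_iff.1 hred (h2 r d hr hd (by omega)).1.isPreirreducible

end Pool.Agent.Lib.D13r
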