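import Pool.Agent.Lib.D13r.Low
import Pool.Agent.Lib.D13R.Skel

/-! Reducibility at `d = 13` without hypotheses, and the final statement from `d ≤ 12`. -/

namespace D13r

open Pool.Agent.Lib Pool.Agent.Lib.TSQ Pool.Agent.Lib.D13R

universe u

variable {k : Type u} [Field k] [Infinite k]

theorem low13 (k : Type u) [Field k] : ∃ (B : Type u) (_ : Field B) (_ : Algebra k B)
    (Ψ : Fin 3 × Fin 13 × Fin 13 → B),
    (∀ F : MvPolynomial (Fin 3 × Fin 13 × Fin 13) k, MvPolynomial.aeval Ψ F = 0 →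
      ∀ T : Fin 3 → Matrix (Fin 13) (Fin 13) k, Q5dc.Curv T →
        MvPolynomial.eval (Q5dc.co T) F = 0) ∧
    (∀ z : Option Pr → B, ¬ AlgebraicIndependent k z) := by
  obtain ⟨B, h1, h2, Ψ, h3, h4, -⟩ := low.{u, 0} k (d := 13) (by norm_num)
  refine ⟨B, h1, h2, Ψ, h3, fun z => h4 (Option Pr) ?_ z⟩
  rw [Fintype.card_option, card_Pr]
  norm_num

/-- not all commuting nilpotent triples of size 13 are limits of curvilinear ones -/
theorem not_all_cl13 : ¬ ∀ T : Fin 3 → Matrix (Fin 13) (Fin 13) k,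
    (∀ i j, T i * T j = T j * T i) → (∀ i, IsNilpotent (T i)) → Q5dc.Cl T := by
  obtain ⟨B, h1, h2, Ψ, h3, h4⟩ := low13 k
  exact not_all_of_low h4 Ψ h3

/-- reducibility for `d = 13`, `r ≥ 13` -/
theorem not_irreducible13 {r : ℕ} (hr : 13 ≤ r) :
    ¬ IsIrreducible (Set.univ : Set (PQuot k r 13)) := by
  obtain ⟨B, h1, h2, Ψ, h3, h4⟩ := low13 k
  exact fun h => not_irreducible_of_low h4 Ψ h3 hr h.isPreirreducible

/-- the full answer, from the statement for triples of size at most 12 -/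
theorem full (h12 : ∀ d : ℕ, 0 < d → d ≤ 12 → ∀ A : Fin 3 → Matrix (Fin d) (Fin d) k,
      (∀ i j, A i * A j = A j * A i) → (∀ i, IsNilpotent (A i)) → Q5dc.Cl A) :
    IsLeast {d : ℕ | 1 ≤ d ∧ ∃ r : ℕ, 1 ≤ r ∧
      ¬ IsIrreducible (Set.univ : Set (PQuot k r d))} 13 ∧
    (∀ r d : ℕ, 1 ≤ r → 1 ≤ d → d ≤ 12 →
      IsIrreducible (Set.univ : Set (PQuot k r d)) ∧ Dense (Curv k r d)) ∧
    (∀ r : ℕ, 13 ≤ r → ¬ IsIrreducible (Set.univ : Set (PQuot k r 13))) := by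
  obtain ⟨B, h1, h2, Ψ, h3, h4⟩ := low13 k
  exact full_of h12 h4 Ψ h3

end D13r
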