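import Pool.Agent.Lib.D13r.Rec
import Pool.Agent.Lib.TSQ.Bridge

/-! The curvilinear triples: parametrisation, and transcendence degree at most `d² + d - 2` of the
generic one. -/

namespace D13r

open MvPolynomial Matrix Pool.Agent.Lib Pool.Agent.Lib.TSQ

universe u

variable {k : Type u} [Field k] {d : ℕ}

/-- the coordinates of the generic curvilinear triple -/
noncomputable def gen (k : Type u) [Field k] (d : ℕ) :
    Fin 3 × Fin d × Fin d → MvPolynomial (Par 0 d) k :=
  fun t => Am (X : Par 0 d → MvPolynomial (Par 0 d) k) t.1 t.2.1 t.2.2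

theorem low_vanish (hd : 0 < d) (F : MvPolynomial (Fin 3 × Fin d × Fin d) k)
    (h : aeval (gen k d) F = 0) {T : Fin 3 → Matrix (Fin d) (Fin d) k} (hT : Q5dc.Curv T) :
    eval (Q5dc.co T) F = 0 := by
  obtain ⟨G, hG, c, hc⟩ := (curv_nf hd T).mp hT
  have hG0 : G.det ≠ 0 := hG.ne_zero
  let x : Par 0 d → k := Sum.elim (fun p => G p.1 p.2)
    (Sum.elim (fun p => (G.det)⁻¹ * c p.1 p.2) (fun p => p.1.elim0))
  have hx1 : Gm x = G := rfl
  have hx2 : ∀ ν, cm x ν = (G.det)⁻¹ • c ν := fun ν => rfl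
  have hA : ∀ ν, Am x ν = T ν := fun ν => by
    rw [Am_eq x (by rw [hx1]; exact hG0), hx1, hx2, smul_smul, mul_inv_cancel₀ hG0, one_smul, hc]
  have h1 : ∀ t, eval x (gen k d t) = Q5dc.co T t := fun t => by
    have h2 := congrFun (congrFun (ParAAux.map_Am (eval x) (X : Par 0 d → _) t.1) t.2.1) t.2.2
    rw [RingHom.mapMatrix_apply, Matrix.map_apply] at h2
    simp only [eval_X] at h2
    show eval x (Am X t.1 t.2.1 t.2.2) = T t.1 t.2.1 t.2.2
    rw [h2, ← hA]
  have h2 := congrArg (eval x) h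
  rw [map_zero] at h2
  rw [← h2]
  have h3 : (aeval x : MvPolynomial (Par 0 d) k →ₐ[k] k).comp (aeval (gen k d))
      = aeval (Q5dc.co T) := by
    apply MvPolynomial.algHom_ext
    intro t
    rw [AlgHom.comp_apply, aeval_X, aeval_X, ← h1]
    rfl
  exact (DFunLike.congr_fun h3 F).symm

/-- normal form of the matrices commuting with a regular nilpotent matrix -/
theorem low_nf (n : ℕ) (N A : Matrix (Fin (n + 1)) (Fin (n + 1)) k) (hN : IsNilpotent N)
    (w : Fin (n + 1) → k) (hw : N ^ n *ᵥ w ≠ 0) (hA : A * N = N * A) (hnil : IsNilpotent A) :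
    ∃ c : Fin n → k, A = ∑ j : Fin n, c j • N ^ ((j : ℕ) + 1) := by
  classical
  have h0 : N ^ (n + 1) = 0 := RegAux.pow_card N hN
  have hinj : Function.Injective (RegAux.kry N w).mulVec := by
    intro a b hab
    have h1 : RegAux.kry N w *ᵥ (a - b) = 0 := by
      rw [Matrix.mulVec_sub, sub_eq_zero]
      exact hab
    exact sub_eq_zero.1 (RegAux.kry_inj N w h0 hw _ h1)
  have hunit : IsUnit (RegAux.kry N w) := Matrix.mulVec_injective_iff_isUnit.1 hinj
  have hdet : IsUnit (RegAux.kry N w).det := (Matrix.isUnit_iff_isUnit_det _).1 hunit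
  set G := RegAux.kry N w with hG
  have hGG : G * G⁻¹ = 1 := Matrix.mul_nonsing_inv _ hdet
  set e : Fin (n + 1) → k := G⁻¹ *ᵥ (A *ᵥ w) with he
  have hAw : A *ᵥ w = ∑ j : Fin (n + 1), e j • (N ^ (j : ℕ) *ᵥ w) := by
    rw [← RegAux.kry_mulVec, ← hG, he, Matrix.mulVec_mulVec, hGG, Matrix.one_mulVec]
  have hAN : ∀ j : ℕ, A * N ^ j = N ^ j * A := by
    intro j
    exact ((show Commute A N from hA).pow_right j).eq
  set B : Matrix (Fin (n + 1)) (Fin (n + 1)) k := ∑ j : Fin (n + 1), e j • N ^ (j : ℕ) with hB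
  have hBw : B *ᵥ w = A *ᵥ w := by
    rw [hAw, hB, Matrix.sum_mulVec]
    apply Finset.sum_congr rfl
    intro j _
    rw [Matrix.smul_mulVec]
  have hBN : ∀ j : ℕ, B * N ^ j = N ^ j * B := by
    intro j
    rw [hB, Finset.sum_mul, Finset.mul_sum]
    apply Finset.sum_congr rfl
    intro i _
    rw [Matrix.smul_mul, Matrix.mul_smul, ← pow_add, ← pow_add, add_comm (i : ℕ) j]
  have hABG : A * G = B * G := by
    ext i j
    have h1 : (A * G) i j = (A *ᵥ (N ^ (j : ℕ) *ᵥ w)) i := rfl
    have h2 : (B * G) i j = (B *ᵥ (N ^ (j : ℕ) *ᵥ w)) i := rfl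
    rw [h1, h2, Matrix.mulVec_mulVec, Matrix.mulVec_mulVec, hAN, hBN, ← Matrix.mulVec_mulVec,
      ← Matrix.mulVec_mulVec, hBw]
  have hAB : A = B := by
    have h1 : A * G * G⁻¹ = B * G * G⁻¹ := by rw [hABG]
    rwa [Matrix.mul_assoc, Matrix.mul_assoc, hGG, Matrix.mul_one, Matrix.mul_one] at h1
  have he0 : e 0 = 0 := by
    have hC : A - e 0 • (1 : Matrix (Fin (n + 1)) (Fin (n + 1)) k) =
        N * ∑ j : Fin n, e j.succ • N ^ (j : ℕ) := by
      rw [hAB, hB, Fin.sum_univ_succ, Finset.mul_sum]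
      simp only [Fin.val_zero, pow_zero, add_sub_cancel_left, Fin.val_succ]
      apply Finset.sum_congr rfl
      intro j _
      rw [Matrix.mul_smul, pow_succ']
    have hcomm : Commute N (∑ j : Fin n, e j.succ • N ^ (j : ℕ)) := by
      apply Commute.sum_right
      intro j _
      exact ((Commute.refl N).pow_right _).smul_right _
    have hCn : IsNilpotent (A - e 0 • (1 : Matrix (Fin (n + 1)) (Fin (n + 1)) k)) := by
      rw [hC]
      exact hcomm.isNilpotent_mul_right hN
    have hcomm2 : Commute A (A - e 0 • (1 : Matrix (Fin (n + 1)) (Fin (n + 1)) k)) := by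
      apply Commute.sub_right (Commute.refl A)
      exact (Commute.one_right A).smul_right _
    have h3 : IsNilpotent (A - (A - e 0 • (1 : Matrix (Fin (n + 1)) (Fin (n + 1)) k))) :=
      hcomm2.isNilpotent_sub hnil hCn
    rw [sub_sub_cancel] at h3
    obtain ⟨m, hm⟩ := h3
    rw [smul_pow, one_pow] at hm
    have h4 := congrFun (congrFun hm 0) 0
    rw [Matrix.smul_apply, Matrix.one_apply_eq, Matrix.zero_apply, smul_eq_mul, mul_one] at h4
    exact eq_zero_of_pow_eq_zero h4
  refine ⟨fun j => e j.succ, ?_⟩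
  rw [hAB, hB, Fin.sum_univ_succ, he0, zero_smul, zero_add]
  rfl

/-- all entries of a regular commuting nilpotent triple lie in a field generated by
`n (n + 1) + 2 n` elements -/
theorem low_gen_aux {L : Type u} [Field L] [Algebra k L] (n : ℕ)
    (A : Fin 3 → Matrix (Fin (n + 1)) (Fin (n + 1)) L) (hA : ∀ i j, A i * A j = A j * A i)
    (hnil : ∀ i, IsNilpotent (A i)) (hreg : A 0 ^ n ≠ 0) :
    ∃ s : Finset L, s.card ≤ (n + 1) * n + 2 * n ∧
      ∀ ν i j, A ν i j ∈ IntermediateField.adjoin k (s : Set L) := by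
  classical
  have h0 : A 0 ^ (n + 1) = 0 := RegAux.pow_card _ (hnil 0)
  obtain ⟨j0, hj0⟩ : ∃ j : Fin (n + 1), A 0 ^ n *ᵥ (Pi.single j 1) ≠ 0 := by
    by_contra hcon
    push Not at hcon
    apply hreg
    apply Matrix.ext_of_mulVec_single
    intro j
    rw [hcon, Matrix.zero_mulVec]
  set w : Fin (n + 1) → L := Pi.single j0 1 with hw
  have hinj : Function.Injective (RegAux.kry (A 0) w).mulVec := by
    intro a b hab
    have h1 : RegAux.kry (A 0) w *ᵥ (a - b) = 0 := by
      rw [Matrix.mulVec_sub, sub_eq_zero]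
      exact hab
    exact sub_eq_zero.1 (RegAux.kry_inj _ w h0 hj0 _ h1)
  have hdet : IsUnit (RegAux.kry (A 0) w).det :=
    (Matrix.isUnit_iff_isUnit_det _).1 (Matrix.mulVec_injective_iff_isUnit.1 hinj)
  obtain ⟨c1, hc1⟩ := low_nf n (A 0) (A 1) (hnil 0) w hj0 (hA 1 0) (hnil 1)
  obtain ⟨c2, hc2⟩ := low_nf n (A 0) (A 2) (hnil 0) w hj0 (hA 2 0) (hnil 2)
  set P := RegAux.kry (A 0) w with hP
  let y : (Fin (n + 1) × Fin n) ⊕ (Fin n ⊕ Fin n) → L :=
    Sum.elim (fun p => P p.1 p.2.succ) (Sum.elim c1 c2)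
  refine ⟨Finset.univ.image y, ?_, ?_⟩
  · refine Finset.card_image_le.trans ?_
    rw [Finset.card_univ, Fintype.card_sum, Fintype.card_sum, Fintype.card_prod, Fintype.card_fin,
      Fintype.card_fin]
    omega
  · set F := IntermediateField.adjoin k ((Finset.univ.image y : Finset L) : Set L) with hF
    have hy : ∀ p, y p ∈ F.toSubfield := fun p =>
      IntermediateField.subset_adjoin k _ (by simp)
    have hPF : MIn F.toSubfield P := by
      intro i j
      refine Fin.cases ?_ (fun j => ?_) j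
      · have h1 : P i 0 = (Pi.single j0 1 : Fin (n + 1) → L) i := by
          rw [hP, RegAux.kry, Matrix.of_apply, Fin.val_zero, pow_zero, Matrix.one_mulVec]
        rw [h1, Pi.single_apply]
        split_ifs
        · exact F.toSubfield.one_mem
        · exact F.toSubfield.zero_mem
      · exact hy (Sum.inl (i, j))
    have hJ : MIn F.toSubfield (Jp L (n + 1) 1) := by
      intro i j
      rw [Jp, Matrix.of_apply]
      split_ifs
      · exact F.toSubfield.one_mem
      · exact F.toSubfield.zero_mem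
    have hA0 : MIn F.toSubfield (A 0) := by
      have h1 : A 0 = P * Jp L (n + 1) 1 * P⁻¹ := by
        have h2 := RegAux.pow_kry (A 0) w h0 1
        rw [pow_one] at h2
        rw [← h2, Matrix.mul_assoc, Matrix.mul_nonsing_inv _ hdet, Matrix.mul_one]
      rw [h1]
      exact (hPF.mul hJ).mul hPF.inv
    have hpow : ∀ m : ℕ, MIn F.toSubfield (A 0 ^ m) := by
      intro m
      induction m with
      | zero =>
        intro i j
        rw [pow_zero, Matrix.one_apply]
        split_ifs
        · exact F.toSubfield.one_mem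
        · exact F.toSubfield.zero_mem
      | succ m ih => rw [pow_succ]; exact ih.mul hA0
    have hsum : ∀ c : Fin n → L, (∀ j, c j ∈ F.toSubfield) →
        MIn F.toSubfield (∑ j : Fin n, c j • A 0 ^ ((j : ℕ) + 1)) := by
      intro c hc i j
      rw [Matrix.sum_apply]
      refine F.toSubfield.sum_mem fun l _ => ?_
      rw [Matrix.smul_apply, smul_eq_mul]
      exact F.toSubfield.mul_mem (hc l) (hpow _ _ _)
    intro ν i j
    fin_cases ν
    · exact hA0 i j
    · show A 1 i j ∈ F
      rw [hc1]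
      exact hsum c1 (fun j => hy (Sum.inr (Sum.inl j))) i j
    · show A 2 i j ∈ F
      rw [hc2]
      exact hsum c2 (fun j => hy (Sum.inr (Sum.inr j))) i j

/-- the generic triple over the field of fractions -/
theorem gen_map (L : Type u) [Field L] [Algebra (MvPolynomial (Par 0 d) k) L]
    (t : Fin 3 × Fin d × Fin d) :
    algebraMap (MvPolynomial (Par 0 d) k) L (gen k d t)
      = Am (fun p => algebraMap (MvPolynomial (Par 0 d) k) L (X p)) t.1 t.2.1 t.2.2 := by
  have h2 := congrFun (congrFun (ParAAux.map_Am (algebraMap (MvPolynomial (Par 0 d) k) L)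
    (X : Par 0 d → _) t.1) t.2.1) t.2.2
  rw [RingHom.mapMatrix_apply, Matrix.map_apply] at h2
  exact h2

theorem gen_det (L : Type u) [Field L] [Algebra (MvPolynomial (Par 0 d) k) L]
    [IsFractionRing (MvPolynomial (Par 0 d) k) L] :
    (Gm fun p : Par 0 d => algebraMap (MvPolynomial (Par 0 d) k) L (X p)).det ≠ 0 := by
  have h1 : (Gm fun p : Par 0 d => algebraMap (MvPolynomial (Par 0 d) k) L (X p))
      = (algebraMap (MvPolynomial (Par 0 d) k) L).mapMatrix
        (Gm (X : Par 0 d → MvPolynomial (Par 0 d) k)) := rfl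
  rw [h1, ← RingHom.map_det]
  intro h
  have h2 : (Gm (X : Par 0 d → MvPolynomial (Par 0 d) k)).det = 0 :=
    IsFractionRing.injective (MvPolynomial (Par 0 d) k) L (by rw [h, map_zero])
  have h3 := congrArg (eval (ParAAux.x0 k 0 d)) h2
  rw [RingHom.map_det, map_zero] at h3
  have h4 : (eval (ParAAux.x0 k 0 d)).mapMatrix (Gm (X : Par 0 d → MvPolynomial (Par 0 d) k))
      = Gm (ParAAux.x0 k 0 d) := by
    ext i j
    simp [Gm]
  rw [h4, ParAAux.Gm_x0, det_one] at h3
  exact one_ne_zero h3

open scoped IntermediateField.algebraAdjoinAdjoin in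
theorem trdeg_adjoin_le {L : Type u} [Field L] [Algebra k L] (s : Finset L) :
    Algebra.trdeg k (IntermediateField.adjoin k (s : Set L)) ≤ (s.card : Cardinal.{u}) := by
  classical
  have h1 : Algebra.trdeg k (Algebra.adjoin k (s : Set L)) ≤ (s.card : Cardinal.{u}) := by
    let f : MvPolynomial s k →ₐ[k] Algebra.adjoin k (s : Set L) :=
      aeval fun x => ⟨x.1, Algebra.subset_adjoin (Finset.mem_coe.mpr x.2)⟩
    have hf : Function.Surjective f := by
      rintro ⟨y, hy⟩
      have h2 : y ∈ (aeval (fun x : s => (x : L)) : MvPolynomial s k →ₐ[k] L).range := by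
        rw [← Algebra.adjoin_range_eq_range_aeval]
        have h5 : Set.range (fun x : s => (x : L)) = (s : Set L) := Subtype.range_coe
        rw [h5]
        exact hy
      obtain ⟨p, hp⟩ := h2
      refine ⟨p, Subtype.ext ?_⟩
      refine Eq.trans ?_ hp
      have h3 : ((Algebra.adjoin k (s : Set L)).val.comp f)
          = (aeval (fun x : s => (x : L)) : MvPolynomial s k →ₐ[k] L) := by
        apply MvPolynomial.algHom_ext
        intro x
        rw [AlgHom.comp_apply, aeval_X, aeval_X]
        rfl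
      exact DFunLike.congr_fun h3 p
    have h4 := trdeg_le_of_surjective f hf
    refine h4.trans ?_
    rw [MvPolynomial.trdeg_of_isDomain]
    simp
  have h2 := _root_.trdeg_add_eq k (Algebra.adjoin k (s : Set L))
    (A := IntermediateField.adjoin k (s : Set L))
  have h3 : Algebra.trdeg (Algebra.adjoin k (s : Set L))
      (IntermediateField.adjoin k (s : Set L)) = 0 := trdeg_eq_zero
  rw [h3, add_zero] at h2
  rw [← h2]
  exact h1

/-- the generic curvilinear triple: it detects the polynomials vanishing on the curvilinear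
triples, and it has transcendence degree at most `d² + d - 2` -/
theorem low.{v} (k : Type u) [Field k] {d : ℕ} (hd : 0 < d) :
    ∃ (B : Type u) (_ : Field B) (_ : Algebra k B) (Ψ : Fin 3 × Fin d × Fin d → B),
      (∀ F : MvPolynomial (Fin 3 × Fin d × Fin d) k, aeval Ψ F = 0 →
        ∀ T : Fin 3 → Matrix (Fin d) (Fin d) k, Q5dc.Curv T → eval (Q5dc.co T) F = 0) ∧
      (∀ (ι : Type v) [Fintype ι], d * d + d - 2 < Fintype.card ι → ∀ z : ι → B,
        ¬ AlgebraicIndependent k z) ∧
      (Matrix.of fun i j => Ψ (0, i, j)) ^ (d - 1) ≠ 0 := by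
  obtain ⟨n, rfl⟩ : ∃ n, d = n + 1 := ⟨d - 1, by omega⟩
  let L := FractionRing (MvPolynomial (Par 0 (n + 1)) k)
  let x : Par 0 (n + 1) → L := fun p => algebraMap (MvPolynomial (Par 0 (n + 1)) k) L (X p)
  have hG : (Gm x).det ≠ 0 := gen_det L
  have hreg : Am x 0 ^ (n + 1 - 1) ≠ 0 := ParCAux.Am_pow_ne hd x hG (by
    show algebraMap (MvPolynomial (Par 0 (n + 1)) k) L (X _) ≠ 0
    intro h
    exact MvPolynomial.X_ne_zero (R := k) _
      (IsFractionRing.injective (MvPolynomial (Par 0 (n + 1)) k) L (by rw [h, map_zero])))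
  obtain ⟨s, hs, hmem⟩ := low_gen_aux (k := k) n (Am x) (ParCAux.Am_comm x hG)
    (ParCAux.Am_nilp x hG) hreg
  let Ψ : Fin 3 × Fin (n + 1) × Fin (n + 1) → IntermediateField.adjoin k (s : Set L) :=
    fun t => ⟨Am x t.1 t.2.1 t.2.2, hmem _ _ _⟩
  refine ⟨IntermediateField.adjoin k (s : Set L), inferInstance, inferInstance, Ψ, ?_, ?_, ?_⟩
  · intro F hF T hT
    refine low_vanish hd F ?_ hT
    apply IsFractionRing.injective (MvPolynomial (Par 0 (n + 1)) k) L
    rw [map_zero]
    have h1 : ((IsScalarTower.toAlgHom k (MvPolynomial (Par 0 (n + 1)) k) L).comp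
        (aeval (gen k (n + 1)))) = (IntermediateField.val _).comp (aeval Ψ) := by
      apply MvPolynomial.algHom_ext
      intro t
      rw [AlgHom.comp_apply, aeval_X, AlgHom.comp_apply, aeval_X]
      exact gen_map L t
    have h2 := DFunLike.congr_fun h1 F
    rw [AlgHom.comp_apply, AlgHom.comp_apply, hF, map_zero] at h2
    exact h2
  · intro ι _ hι z hz
    have h1 := hz.lift_cardinalMk_le_trdeg
    have h2 := h1.trans (Cardinal.lift_le.mpr (trdeg_adjoin_le s))
    rw [Cardinal.mk_fintype, Cardinal.lift_natCast, Cardinal.lift_natCast] at h2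
    have h3 : Fintype.card ι ≤ s.card := by exact_mod_cast h2
    have h4 : (n + 1) * n + 2 * n = (n + 1) * (n + 1) + (n + 1) - 2 := by
      have : (n + 1) * (n + 1) = (n + 1) * n + (n + 1) := by ring
      omega
    omega
  · intro h
    apply hreg
    have h1 : (IntermediateField.val (IntermediateField.adjoin k (s : Set L))).mapMatrix
        (Matrix.of fun i j => Ψ (0, i, j)) = Am x 0 := by
      ext i j
      rfl
    rw [← h1, ← map_pow, h, map_zero]

end D13r
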