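import Mathlib

/-! Matrices of triples of type (3, 6, 4), conjugated by block unipotent matrices, and recovery of
the parameters from the entries. -/

namespace D13r

open Matrix

section MIn

variable {K : Type*} [Field K] {m n l : Type*}

/-- all entries lie in the subfield -/
def MIn (F : Subfield K) (M : Matrix m n K) : Prop := ∀ i j, M i j ∈ F

variable {F : Subfield K}

theorem MIn.mul [Fintype n] {M : Matrix m n K} {N : Matrix n l K} (hM : MIn F M) (hN : MIn F N) :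
    MIn F (M * N) := fun i j => by
  rw [Matrix.mul_apply]
  exact F.sum_mem fun x _ => F.mul_mem (hM i x) (hN x j)

theorem MIn.add {M N : Matrix m n K} (hM : MIn F M) (hN : MIn F N) : MIn F (M + N) :=
  fun i j => F.add_mem (hM i j) (hN i j)

theorem MIn.sub {M N : Matrix m n K} (hM : MIn F M) (hN : MIn F N) : MIn F (M - N) :=
  fun i j => F.sub_mem (hM i j) (hN i j)

theorem MIn.neg {M : Matrix m n K} (hM : MIn F M) : MIn F (-M) :=
  fun i j => F.neg_mem (hM i j)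

theorem MIn.sub_matrix {m' n' : Type*} {M : Matrix m n K} (hM : MIn F M) (f : m' → m) (g : n' → n) :
    MIn F (M.submatrix f g) := fun i j => hM (f i) (g j)

theorem MIn.det [Fintype n] [DecidableEq n] {M : Matrix n n K} (hM : MIn F M) : M.det ∈ F := by
  rw [Matrix.det_apply']
  refine F.sum_mem fun σ _ => F.mul_mem (intCast_mem F _) ?_
  exact F.prod_mem fun i _ => hM _ _

theorem MIn.inv [Fintype n] [DecidableEq n] {M : Matrix n n K} (hM : MIn F M) : MIn F M⁻¹ := by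
  intro i j
  rw [Matrix.inv_def, Matrix.smul_apply, smul_eq_mul, Ring.inverse_eq_inv']
  refine F.mul_mem (F.inv_mem hM.det) ?_
  rw [Matrix.adjugate_apply]
  refine MIn.det fun a b => ?_
  rw [Matrix.updateRow_apply]
  split_ifs
  · rw [Pi.single_apply]
    split_ifs
    · exact F.one_mem
    · exact F.zero_mem
  · exact hM a b

end MIn

/-! ### the family -/

variable {K : Type*} [CommRing K]

/-- first layer to second layer -/
def Pp (A B : Matrix (Fin 3) (Fin 3) K) : Fin 3 → Matrix (Fin 3 ⊕ Fin 3) (Fin 3) K :=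
  ![fromRows 1 0, fromRows A B, fromRows 0 1]

/-- second layer to third layer -/
def Qp (A B : Matrix (Fin 3) (Fin 3) K) (C D E : Matrix (Fin 4) (Fin 3) K) :
    Fin 3 → Matrix (Fin 4) (Fin 3 ⊕ Fin 3) K :=
  ![fromCols C D, fromCols (C * A + D * B) (D * A + E * B), fromCols D E]

/-- size thirteen -/
abbrev I13 : Type := Fin 3 ⊕ ((Fin 3 ⊕ Fin 3) ⊕ Fin 4)

/-- strictly lower block triangular matrix -/
def nn (P : Matrix (Fin 3 ⊕ Fin 3) (Fin 3) K) (Q : Matrix (Fin 4) (Fin 3 ⊕ Fin 3) K)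
    (R : Matrix (Fin 4) (Fin 3) K) : Matrix I13 I13 K :=
  fromBlocks 0 0 (fromRows P R) (fromBlocks 0 0 Q 0)

/-- block unipotent matrix -/
def uu (U : Matrix (Fin 3) (Fin 3 ⊕ Fin 3) K) (V : Matrix (Fin 3) (Fin 4) K)
    (W : Matrix (Fin 3 ⊕ Fin 3) (Fin 4) K) : Matrix I13 I13 K :=
  fromBlocks 1 (fromCols U V) 0 (fromBlocks 1 W 0 1)

theorem nn_mul (P P' : Matrix (Fin 3 ⊕ Fin 3) (Fin 3) K) (Q Q' : Matrix (Fin 4) (Fin 3 ⊕ Fin 3) K)
    (R R' : Matrix (Fin 4) (Fin 3) K) :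
    nn P Q R * nn P' Q' R' = nn 0 0 (Q * P') := by
  unfold nn
  rw [fromBlocks_multiply]
  simp [fromBlocks_multiply, fromBlocks_mul_fromRows]

theorem nn_mul₂ (P : Matrix (Fin 3 ⊕ Fin 3) (Fin 3) K) (Q : Matrix (Fin 4) (Fin 3 ⊕ Fin 3) K)
    (R R' : Matrix (Fin 4) (Fin 3) K) :
    nn 0 0 R' * nn P Q R = 0 := by
  rw [nn_mul]
  unfold nn
  simp

theorem Qp_Pp (A B : Matrix (Fin 3) (Fin 3) K) (C D E : Matrix (Fin 4) (Fin 3) K) (i j : Fin 3) :
    Qp A B C D E i * Pp A B j = Qp A B C D E j * Pp A B i := by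
  fin_cases i <;> fin_cases j <;> simp [Qp, Pp, fromCols_mul_fromRows]

theorem uu_inv (U : Matrix (Fin 3) (Fin 3 ⊕ Fin 3) K) (V : Matrix (Fin 3) (Fin 4) K)
    (W : Matrix (Fin 3 ⊕ Fin 3) (Fin 4) K) : uu (-U) (U * W - V) (-W) * uu U V W = 1 := by
  unfold uu
  rw [fromBlocks_multiply]
  simp only [fromBlocks_multiply, fromCols_mul_fromBlocks, Matrix.mul_zero, Matrix.mul_one,
    Matrix.one_mul, Matrix.zero_mul, add_zero, zero_add]
  rw [← fromBlocks_one, ← fromBlocks_one]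
  congr 1
  · ext i j
    rcases j with j | j
    · simp
    · simp only [fromCols_apply_inr, Matrix.add_apply, Matrix.sub_apply, Matrix.neg_mul,
        Matrix.neg_apply, Matrix.zero_apply]
      ring
  · simp

theorem uu_inv' (U : Matrix (Fin 3) (Fin 3 ⊕ Fin 3) K) (V : Matrix (Fin 3) (Fin 4) K)
    (W : Matrix (Fin 3 ⊕ Fin 3) (Fin 4) K) : uu U V W * uu (-U) (U * W - V) (-W) = 1 :=
  mul_eq_one_comm.mp (uu_inv U V W)

/-- the conjugated matrix -/
def TT (P : Matrix (Fin 3 ⊕ Fin 3) (Fin 3) K) (Q : Matrix (Fin 4) (Fin 3 ⊕ Fin 3) K)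
    (R : Matrix (Fin 4) (Fin 3) K) (U : Matrix (Fin 3) (Fin 3 ⊕ Fin 3) K)
    (V : Matrix (Fin 3) (Fin 4) K) (W : Matrix (Fin 3 ⊕ Fin 3) (Fin 4) K) : Matrix I13 I13 K :=
  uu U V W * nn P Q R * uu (-U) (U * W - V) (-W)

theorem TT_mul (P P' : Matrix (Fin 3 ⊕ Fin 3) (Fin 3) K)
    (Q Q' : Matrix (Fin 4) (Fin 3 ⊕ Fin 3) K)
    (R R' : Matrix (Fin 4) (Fin 3) K) (U : Matrix (Fin 3) (Fin 3 ⊕ Fin 3) K)
    (V : Matrix (Fin 3) (Fin 4) K) (W : Matrix (Fin 3 ⊕ Fin 3) (Fin 4) K) :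
    TT P Q R U V W * TT P' Q' R' U V W = TT 0 0 (Q * P') U V W := by
  unfold TT
  have h := uu_inv U V W
  calc _ = uu U V W * nn P Q R * (uu (-U) (U * W - V) (-W) * uu U V W) * nn P' Q' R'
      * uu (-U) (U * W - V) (-W) := by simp only [Matrix.mul_assoc]
    _ = _ := by rw [h, Matrix.mul_one, Matrix.mul_assoc (uu U V W), nn_mul]

theorem TT_mul₂ (P : Matrix (Fin 3 ⊕ Fin 3) (Fin 3) K)
    (Q : Matrix (Fin 4) (Fin 3 ⊕ Fin 3) K)
    (R R' : Matrix (Fin 4) (Fin 3) K) (U : Matrix (Fin 3) (Fin 3 ⊕ Fin 3) K)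
    (V : Matrix (Fin 3) (Fin 4) K) (W : Matrix (Fin 3 ⊕ Fin 3) (Fin 4) K) :
    TT 0 0 R' U V W * TT P Q R U V W = 0 := by
  rw [TT_mul]
  unfold TT nn
  simp

theorem TT_blocks (P : Matrix (Fin 3 ⊕ Fin 3) (Fin 3) K)
    (Q : Matrix (Fin 4) (Fin 3 ⊕ Fin 3) K)
    (R : Matrix (Fin 4) (Fin 3) K) (U : Matrix (Fin 3) (Fin 3 ⊕ Fin 3) K)
    (V : Matrix (Fin 3) (Fin 4) K) (W : Matrix (Fin 3 ⊕ Fin 3) (Fin 4) K) :
    TT P Q R U V W = fromBlocks (U * P + V * R)
      ((U * P * -U).fromCols (U * P * (U * W - V)) + (V * R * -U).fromCols (V * R * (U * W - V)) +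
        (V * Q).fromCols (V * Q * -W))
      ((P + W * R).fromRows R)
      (((P * -U + W * R * -U).fromRows (R * -U)).fromCols
          ((P * (U * W - V) + W * R * (U * W - V)).fromRows (R * (U * W - V))) +
        fromBlocks (W * Q) (W * Q * -W) Q (Q * -W)) := by
  unfold TT uu nn
  simp only [fromBlocks_multiply, fromCols_mul_fromBlocks, Matrix.mul_zero, Matrix.mul_one,
    Matrix.one_mul, Matrix.zero_mul, add_zero, zero_add, fromCols_mul_fromRows,
    fromBlocks_mul_fromRows, mul_fromCols, fromRows_mul, Matrix.add_mul]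

section entries

variable (P : Matrix (Fin 3 ⊕ Fin 3) (Fin 3) K)
    (Q : Matrix (Fin 4) (Fin 3 ⊕ Fin 3) K)
    (R : Matrix (Fin 4) (Fin 3) K) (U : Matrix (Fin 3) (Fin 3 ⊕ Fin 3) K)
    (V : Matrix (Fin 3) (Fin 4) K) (W : Matrix (Fin 3 ⊕ Fin 3) (Fin 4) K)

theorem TT_11 (i j : Fin 3) : TT P Q R U V W (Sum.inl i) (Sum.inl j) = (U * P + V * R) i j := by
  rw [TT_blocks]; rfl

theorem TT_21 (i : Fin 3 ⊕ Fin 3) (j : Fin 3) :
    TT P Q R U V W (Sum.inr (Sum.inl i)) (Sum.inl j) = (P + W * R) i j := by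
  rw [TT_blocks]; rfl

theorem TT_31 (i : Fin 4) (j : Fin 3) :
    TT P Q R U V W (Sum.inr (Sum.inr i)) (Sum.inl j) = R i j := by
  rw [TT_blocks]; rfl

theorem TT_32 (i : Fin 4) (j : Fin 3 ⊕ Fin 3) :
    TT P Q R U V W (Sum.inr (Sum.inr i)) (Sum.inr (Sum.inl j)) = (R * -U + Q) i j := by
  rw [TT_blocks]; rfl

theorem TT_33 (i j : Fin 4) :
    TT P Q R U V W (Sum.inr (Sum.inr i)) (Sum.inr (Sum.inr j))
      = (R * (U * W - V) + Q * -W) i j := by
  rw [TT_blocks]; rfl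

end entries

/-! ### recovery -/

/-- nine of the twelve rows -/
def sl : (Fin 3 ⊕ Fin 3) ⊕ Fin 3 → Fin 3 × Fin 4
  | Sum.inl (Sum.inl i) => (0, i.castSucc)
  | Sum.inl (Sum.inr i) => (2, i.castSucc)
  | Sum.inr i => ![(0, 3), (2, 3), (1, 0)] i

/-- the matrix of these rows -/
def SL {K c : Type*} (M : Fin 3 → Matrix (Fin 4) c K) : Matrix ((Fin 3 ⊕ Fin 3) ⊕ Fin 3) c K :=
  Matrix.of fun r x => M (sl r).1 (sl r).2 x

theorem SL_mul {K c c' : Type*} [CommRing K] [Fintype c] (M : Fin 3 → Matrix (Fin 4) c K)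
    (X : Matrix c c' K) : SL (fun i => M i * X) = SL M * X := by
  ext i j
  simp [SL, Matrix.mul_apply]

section recover

variable {K : Type*} [Field K]

theorem recover (F : Subfield K) (A B : Matrix (Fin 3) (Fin 3) K)
    (C D E : Matrix (Fin 4) (Fin 3) K) (R : Fin 3 → Matrix (Fin 4) (Fin 3) K)
    (Z : Matrix (Fin 3 ⊕ Fin 3) (Fin 3 ⊕ Fin 3) K) (U : Matrix (Fin 3) (Fin 3 ⊕ Fin 3) K)
    (V : Matrix (Fin 3) (Fin 4) K) (W : Matrix (Fin 3 ⊕ Fin 3) (Fin 4) K)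
    (hZ : Z.det ≠ 0) (hS : (SL fun i => fromCols (Qp A B C D E i) (R i)).det ≠ 0)
    (hT : ∀ i, MIn F (TT (Z⁻¹ * Pp A B i) (Qp A B C D E i * Z) (R i) U V W)) :
    MIn F A ∧ MIn F B ∧ MIn F C ∧ MIn F D ∧ MIn F E ∧ (∀ i, MIn F (R i)) ∧ MIn F Z ∧ MIn F U ∧
      MIn F V ∧ MIn F W := by
  have hZu : IsUnit Z.det := isUnit_iff_ne_zero.mpr hZ
  have hR : ∀ i, MIn F (R i) := fun i a b => by
    have := hT i (Sum.inr (Sum.inr a)) (Sum.inl b)
    rwa [TT_31] at this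
  have hN : ∀ i, MIn F (R i * -U + Qp A B C D E i * Z) := fun i a b => by
    have := hT i (Sum.inr (Sum.inr a)) (Sum.inr (Sum.inl b))
    rwa [TT_32] at this
  have hW33 : ∀ i, MIn F (R i * (U * W - V) + Qp A B C D E i * Z * -W) := fun i a b => by
    have := hT i (Sum.inr (Sum.inr a)) (Sum.inr (Sum.inr b))
    rwa [TT_33] at this
  have h21 : ∀ i, MIn F (Z⁻¹ * Pp A B i + W * R i) := fun i a b => by
    have := hT i (Sum.inr (Sum.inl a)) (Sum.inl b)
    rwa [TT_21] at this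
  have h11 : ∀ i, MIn F (U * (Z⁻¹ * Pp A B i) + V * R i) := fun i a b => by
    have := hT i (Sum.inl a) (Sum.inl b)
    rwa [TT_11] at this
  -- the nine rows
  set M9 : Matrix ((Fin 3 ⊕ Fin 3) ⊕ Fin 3) ((Fin 3 ⊕ Fin 3) ⊕ Fin 3) K :=
    SL fun i => fromCols (R i * -U + Qp A B C D E i * Z) (R i) with hM9
  have hM9F : MIn F M9 := by
    intro a b
    rcases b with b | b
    · exact hN _ _ _
    · exact hR _ _ _
  have hM9f : M9 = (SL fun i => fromCols (Qp A B C D E i) (R i)) * fromBlocks Z 0 (-U) 1 := by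
    rw [hM9, ← SL_mul]
    congr 1
    funext i
    rw [fromCols_mul_fromBlocks, Matrix.mul_zero, Matrix.mul_one, zero_add, add_comm]
  have hM9d : IsUnit M9.det := by
    rw [hM9f, det_mul, det_fromBlocks_zero₁₂, det_one, mul_one]
    exact isUnit_iff_ne_zero.mpr (mul_ne_zero hS hZ)
  have hWV : M9 * fromRows W V
      = SL fun i => -(R i * (U * W - V) + Qp A B C D E i * Z * -W) := by
    rw [hM9, ← SL_mul]
    congr 1
    funext i
    rw [fromCols_mul_fromRows]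
    simp only [Matrix.add_mul, Matrix.mul_neg, Matrix.neg_mul, Matrix.mul_sub, Matrix.mul_assoc]
    abel
  have hWV' : MIn F (fromRows W V) := by
    have h1 : fromRows W V = M9⁻¹ * (M9 * fromRows W V) := by
      rw [← Matrix.mul_assoc, nonsing_inv_mul _ hM9d, Matrix.one_mul]
    rw [h1]
    refine hM9F.inv.mul ?_
    rw [hWV]
    intro a b
    exact (hW33 _).neg _ _
  have hW : MIn F W := fun a b => hWV' (Sum.inl a) b
  have hV : MIn F V := fun a b => hWV' (Sum.inr a) b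
  have hZP : ∀ i, MIn F (Z⁻¹ * Pp A B i) := fun i => by
    have := (h21 i).sub (hW.mul (hR i))
    rwa [add_sub_cancel_right] at this
  have hUZP : ∀ i, MIn F (U * Z⁻¹ * Pp A B i) := fun i => by
    have := (h11 i).sub (hV.mul (hR i))
    rwa [add_sub_cancel_right, ← Matrix.mul_assoc] at this
  have hone : fromCols (Pp A B 0) (Pp A B 2) = 1 := by
    simp only [Pp, Matrix.cons_val_zero, Matrix.cons_val]
    rw [fromCols_fromRows_eq_fromBlocks, fromBlocks_one]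
  have hcols : ∀ {l : Type} (M : Matrix l (Fin 3 ⊕ Fin 3) K), MIn F (M * Pp A B 0) →
      MIn F (M * Pp A B 2) → MIn F M := by
    intro l M h0 h2
    have h1 : M = fromCols (M * Pp A B 0) (M * Pp A B 2) := by
      rw [← mul_fromCols, hone, Matrix.mul_one]
    rw [h1]
    intro a b
    rcases b with b | b
    · exact h0 a b
    · exact h2 a b
  have hZi : MIn F Z⁻¹ := hcols _ (hZP 0) (hZP 2)
  have hUZi : MIn F (U * Z⁻¹) := hcols _ (hUZP 0) (hUZP 2)
  have hZF : MIn F Z := by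
    have := hZi.inv
    rwa [nonsing_inv_nonsing_inv _ hZu] at this
  have hU : MIn F U := by
    have := hUZi.mul hZF
    rwa [Matrix.mul_assoc, nonsing_inv_mul _ hZu, Matrix.mul_one] at this
  have hP1 : MIn F (Pp A B 1) := by
    have := hZF.mul (hZP 1)
    rwa [← Matrix.mul_assoc, mul_nonsing_inv _ hZu, Matrix.one_mul] at this
  have hQ : ∀ i, MIn F (Qp A B C D E i) := fun i => by
    have h1 := ((hN i).add ((hR i).mul hU)).mul hZi
    have h2 : (R i * -U + Qp A B C D E i * Z + R i * U) * Z⁻¹ = Qp A B C D E i := by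
      rw [Matrix.mul_neg, neg_add_eq_sub, sub_add_cancel, Matrix.mul_assoc,
        mul_nonsing_inv _ hZu, Matrix.mul_one]
    rwa [h2] at h1
  refine ⟨fun a b => hP1 (Sum.inl a) b, fun a b => hP1 (Sum.inr a) b,
    fun a b => hQ 0 a (Sum.inl b), fun a b => hQ 0 a (Sum.inr b), fun a b => hQ 2 a (Sum.inr b),
    hR, hZF, hU, hV, hW⟩

end recover

end D13r
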